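import Mathlib

namespace Pool.Agent.Results.MP_e3a9f0_pr.NoRate

open Finset
open scoped ENNReal

theorem binom (c y : Finset ℕ+) (z : ℝ≥0∞) :
    ∑' x : Finset ℕ+, (if c ⊆ x ∧ x ⊆ y then z ^ (x.card - c.card) else 0) =
      if c ⊆ y then (z + 1) ^ (y.card - c.card) else 0 := by
  split_ifs with h
  · rw [tsum_eq_sum (s := Icc c y) (fun x hx => if_neg (by simpa using hx)),
      sum_congr (s₁ := Icc c y) rfl (g := fun x : Finset ℕ+ => z ^ (x.card - c.card))
        (fun x hx => if_pos (by simpa using hx)),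
      Icc_eq_image_powerset h, sum_image, ← card_sdiff_of_subset h, ← sum_pow_mul_eq_add_pow]
    · refine sum_congr rfl fun x hx => ?_
      rw [card_union_of_disjoint (disjoint_of_subset_right (mem_powerset.1 hx) disjoint_sdiff)]
      simp
    · intro a ha b hb e
      have h1 := disjoint_of_subset_right (mem_powerset.1 ha) (disjoint_sdiff (s := c) (t := y))
      have h2 := disjoint_of_subset_right (mem_powerset.1 hb) (disjoint_sdiff (s := c) (t := y))
      rw [← union_sdiff_cancel_left h1, ← union_sdiff_cancel_left h2]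
      exact congrArg (· \ c) e
  · simp only [ENNReal.tsum_eq_zero]
    exact fun x => if_neg fun hx => h (hx.1.trans hx.2)

theorem result : ¬ ∃ (f : Finset ℕ+ → ℝ) (α : ℝ), (∀ x, 0 < f x) ∧ HasSum f 1 ∧
    ∀ x, f x = α * ∑' y : {y : Finset ℕ+ // x ⊆ y}, f y := by
  rintro ⟨f, α, h0, h1, h2⟩
  have hα : 0 < α := by
    by_contra h
    have : α * ∑' y : {y : Finset ℕ+ // ∅ ⊆ y}, f y ≤ 0 :=
      mul_nonpos_of_nonpos_of_nonneg (not_lt.1 h) (tsum_nonneg fun y => (h0 _).le)
    linarith [h0 ∅, h2 ∅]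
  obtain ⟨g, hg⟩ : ∃ g : Finset ℕ+ → ℝ≥0∞, g = fun x => ENNReal.ofReal (f x) := ⟨_, rfl⟩
  obtain ⟨a, ha⟩ : ∃ a, a = ENNReal.ofReal α := ⟨_, rfl⟩
  have h3 : ∀ x, g x = a * ∑' y, if x ⊆ y then g y else 0 := fun x => by
    rw [hg, ha]
    simp only
    rw [h2 x, ENNReal.ofReal_mul hα.le, ENNReal.ofReal_tsum_of_nonneg (fun y => (h0 _).le)
      (h1.summable.subtype _)]
    congr 1
    exact (tsum_subtype {y | x ⊆ y} fun y => ENNReal.ofReal (f y)).trans
      (tsum_congr fun y => by simp [Set.indicator])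
  obtain ⟨G, hG⟩ : ∃ G : Finset ℕ+ → ℝ≥0∞ → ℝ≥0∞,
      G = fun c z => ∑' x, if c ⊆ x then g x * z ^ (x.card - c.card) else 0 := ⟨_, rfl⟩
  have h4 : ∀ c z, G c z = a * G c (z + 1) := fun c z => by
    rw [hG]
    simp only
    have e : ∀ x, (if c ⊆ x then g x * z ^ (x.card - c.card) else 0) =
        a * ∑' y, g y * if c ⊆ x ∧ x ⊆ y then z ^ (x.card - c.card) else 0 := fun x => by
      split_ifs with h
      · rw [h3 x, mul_assoc, ← ENNReal.tsum_mul_right]
        simp [h]
      · simp [h]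
    simp only [e]
    rw [ENNReal.tsum_mul_left, ENNReal.tsum_comm]
    simp only [ENNReal.tsum_mul_left, binom]
    simp only [mul_ite, mul_zero]
  have h5 : ∀ c (n : ℕ), g c = a ^ n * G c n := fun c n => by
    induction n with
    | zero =>
      rw [hG]
      simp only [pow_zero, one_mul, Nat.cast_zero]
      rw [tsum_eq_single c (fun x hx => ?_)]
      · simp
      · split_ifs with h
        · rw [zero_pow, mul_zero]
          have := card_lt_card (h.ssubset_of_ne (Ne.symm hx))
          omega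
        · rfl
    | succ n ih => rw [ih, h4, pow_succ, mul_assoc]; push_cast; rfl
  have h6 : ∀ z, z * G {1} z ≤ G ∅ z := fun z => by
    rw [hG]
    simp only
    rw [← ENNReal.tsum_mul_left]
    refine ENNReal.tsum_le_tsum fun x => ?_
    split_ifs with h h'
    · have := card_le_card h
      rw [card_singleton] at this ⊢
      rw [mul_left_comm, ← pow_succ', card_empty, Nat.sub_add_cancel this, Nat.sub_zero]
    · exact absurd (empty_subset x) h'
    all_goals simp
  have h7 : ∀ n : ℕ, n * f {1} ≤ f ∅ := fun n => by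
    have : n * g {1} ≤ g ∅ := by
      rw [h5 {1} n, h5 ∅ n, mul_left_comm]
      exact mul_le_mul_right (h6 n) _
    rw [hg] at this
    simp only at this
    rwa [← ENNReal.ofReal_natCast, ← ENNReal.ofReal_mul (by positivity),
      ENNReal.ofReal_le_ofReal_iff (h0 _).le] at this
  obtain ⟨n, hn⟩ := exists_nat_gt (f ∅ / f {1})
  rw [div_lt_iff₀ (h0 _)] at hn
  linarith [h7 n]

end Pool.Agent.Results.MP_e3a9f0_pr.NoRate
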